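import Pool.Agent.K7.H65.NearPerfectB

/-!
# The 2-near perfect numbers `2 ^ k p ^ m` with `m ≥ 3`

They are exactly the numbers `2 ^ k p ^ 3` with `p = 2 ^ (k + 1) - 1` a Mersenne prime (the omitted
divisors are `p` and `p ^ 2`). So there are none at all for `m ≥ 4`, and the question for all `m ≥ 3` is
equivalent to the question whether there are only finitely many Mersenne primes.
-/

set_option autoImplicit false

namespace Pool.Agent.Results.MP_24a6f7_nt.MersennePrimesOnly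

open Finset ArithmeticFunction

/-- `n` is 2-near perfect: it is positive and `σ(n) = 2 n + d₁ + d₂` for two different positive divisors
of `n`. -/
def TwoNearPerfect (n : ℕ) : Prop :=
  0 < n ∧ ∃ d₁ d₂ : ℕ, d₁ ∣ n ∧ d₂ ∣ n ∧ d₁ ≠ d₂ ∧ ∑ d ∈ n.divisors, d = 2 * n + d₁ + d₂

lemma sum_div (k m p : ℕ) (hp : p.Prime) (hodd : Odd p) :
    ∑ d ∈ (2 ^ k * p ^ m).divisors, d =
      (∑ i ∈ range (k + 1), 2 ^ i) * (∑ i ∈ range (m + 1), p ^ i) := by
  have h2 : (sigma 1) (2 ^ k * p ^ m) = (sigma 1) (2 ^ k) * (sigma 1) (p ^ m) := by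
    apply isMultiplicative_sigma.map_mul_of_coprime
    apply Nat.Coprime.pow
    exact (Nat.coprime_primes Nat.prime_two hp).2 (by rintro rfl; exact absurd hodd (by decide))
  rw [sigma_one_apply, sigma_one_apply_prime_pow Nat.prime_two, sigma_one_apply_prime_pow hp] at h2
  exact h2

lemma forward (k m p : ℕ) (hk : 1 ≤ k) (hm : 3 ≤ m) (hp : p.Prime) (hodd : Odd p)
    (h : TwoNearPerfect (2 ^ k * p ^ m)) : m = 3 ∧ p + 1 = 2 ^ (k + 1) := by
  obtain ⟨-, d₁, d₂, hd₁, hd₂, hne, hs⟩ := h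
  rw [sum_div k m p hp hodd] at hs
  have hp3 : 3 ≤ p := by
    have h2 := hp.two_le
    rcases hodd with ⟨j, hj⟩
    omega
  have hdv : ∀ d : ℕ, d ∣ 2 ^ k * p ^ m → ∃ a b, a ≤ k ∧ b ≤ m ∧ d = 2 ^ a * p ^ b := by
    intro d hd
    obtain ⟨x, y, hx, hy, rfl⟩ := (Nat.dvd_mul).1 hd
    obtain ⟨a, ha, rfl⟩ := (Nat.dvd_prime_pow Nat.prime_two).1 hx
    obtain ⟨b, hb, rfl⟩ := (Nat.dvd_prime_pow hp).1 hy
    exact ⟨a, b, ha, hb, rfl⟩
  obtain ⟨a, e, ha, he, rfl⟩ := hdv d₁ hd₁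
  obtain ⟨b, f, hb, hf, rfl⟩ := hdv d₂ hd₂
  obtain ⟨n, rfl⟩ : ∃ n, m = n + 3 := ⟨m - 3, by omega⟩
  have hg2 : ((∑ i ∈ range (k + 1), 2 ^ i : ℕ) : ℤ) = 2 ^ (k + 1) - 1 := by
    have := geom_sum_mul (2 : ℤ) (k + 1)
    push_cast; linarith
  have hs' : ((2 : ℤ) ^ (k + 1) - 1) * (∑ i ∈ range (n + 3), (p : ℤ) ^ i + (p : ℤ) ^ (n + 3)) =
      2 ^ (k + 1) * (p : ℤ) ^ (n + 3) + 2 ^ a * (p : ℤ) ^ e + 2 ^ b * (p : ℤ) ^ f := by
    have h1 : (((∑ i ∈ range (k + 1), 2 ^ i) * (∑ i ∈ range (n + 3 + 1), p ^ i) : ℕ) : ℤ) =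
      ((2 * (2 ^ k * p ^ (n + 3)) + 2 ^ a * p ^ e + 2 ^ b * p ^ f : ℕ) : ℤ) := by rw [hs]
    rw [Nat.cast_mul, hg2] at h1
    push_cast at h1
    rw [sum_range_succ] at h1
    rw [h1, pow_succ (2 : ℤ) k]
    ring
  have hgp := geom_sum_mul (p : ℤ) (n + 3)
  have key : ((2 : ℤ) ^ (k + 1) - p) * (∑ i ∈ range (n + 3), (p : ℤ) ^ i) =
      1 + 2 ^ a * (p : ℤ) ^ e + 2 ^ b * (p : ℤ) ^ f := by
    linarith
  have hne' : (2 : ℤ) ^ a * (p : ℤ) ^ e ≠ 2 ^ b * (p : ℤ) ^ f := by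
    intro hc; apply hne; exact_mod_cast hc
  obtain ⟨h1, h2⟩ := Pool.Agent.K7.H65.NearPerfect.core p k a b e f n hp3 hodd hk ha hb he hf hne' key
  refine ⟨by omega, ?_⟩
  have : ((p + 1 : ℕ) : ℤ) = ((2 ^ (k + 1) : ℕ) : ℤ) := by push_cast; linarith
  exact_mod_cast this

lemma backward (k p : ℕ) (hp : p.Prime) (hodd : Odd p) (h : p + 1 = 2 ^ (k + 1)) :
    TwoNearPerfect (2 ^ k * p ^ 3) := by
  have hp0 := hp.pos
  refine ⟨by positivity, p, p ^ 2, ?_, ?_, ?_, ?_⟩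
  · exact (dvd_pow_self p (by norm_num)).mul_left _
  · exact (pow_dvd_pow p (by norm_num)).mul_left _
  · intro hc
    have h2 := hp.two_le
    nlinarith
  · rw [sum_div k 3 p hp hodd]
    have h1 : ∑ i ∈ range (k + 1), 2 ^ i = p := by
      have := Nat.geomSum_eq (le_refl 2) (k + 1)
      rw [this, ← h]; simp
    rw [h1]
    have h2 : 2 * (2 ^ k * p ^ 3) = (p + 1) * p ^ 3 := by rw [h, pow_succ]; ring
    rw [h2]
    simp only [sum_range_succ, sum_range_zero]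
    ring

/-- **Main theorem.** For `k ≥ 1`, `m ≥ 3` and an odd prime `p` the number `2 ^ k p ^ m` is 2-near perfect
if and only if `m = 3` and `p = 2 ^ (k + 1) - 1`. Hence there are only finitely many 2-near perfect numbers
of the form `2 ^ k p ^ m` for every `m ≥ 3` if and only if there are only finitely many Mersenne primes. -/
theorem result :
    (∀ k m p : ℕ, 1 ≤ k → 3 ≤ m → p.Prime → Odd p →
      (TwoNearPerfect (2 ^ k * p ^ m) ↔ m = 3 ∧ p + 1 = 2 ^ (k + 1))) ∧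
    ((∀ m : ℕ, 3 ≤ m → {n : ℕ | TwoNearPerfect n ∧ ∃ k p : ℕ, 1 ≤ k ∧ p.Prime ∧ Odd p ∧
        n = 2 ^ k * p ^ m}.Finite) ↔
      {p : ℕ | p.Prime ∧ ∃ j : ℕ, p + 1 = 2 ^ j}.Finite) := by
  have main : ∀ k m p : ℕ, 1 ≤ k → 3 ≤ m → p.Prime → Odd p →
      (TwoNearPerfect (2 ^ k * p ^ m) ↔ m = 3 ∧ p + 1 = 2 ^ (k + 1)) := by
    intro k m p hk hm hp hodd
    constructor
    · exact forward k m p hk hm hp hodd
    · rintro ⟨rfl, h⟩
      exact backward k p hp hodd h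
  refine ⟨main, ?_, ?_⟩
  · intro hfin
    have h3 := hfin 3 le_rfl
    -- `p ↦ 2 ^ k p ^ 3`, `2 ^ (k + 1) = p + 1`
    have : Set.InjOn (fun p : ℕ => (p + 1) / 2 * p ^ 3) {p : ℕ | p.Prime ∧ ∃ j : ℕ, p + 1 = 2 ^ j} := by
      intro p hp q hq hpq
      simp only at hpq
      have hmono : StrictMonoOn (fun p : ℕ => (p + 1) / 2 * p ^ 3) (Set.Ici 1) := by
        intro x hx y hy hxy
        simp only [Set.mem_Ici] at hx hy
        have h1 : (x + 1) / 2 ≤ (y + 1) / 2 := Nat.div_le_div_right (by omega)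
        have h2 : x ^ 3 < y ^ 3 := Nat.pow_lt_pow_left hxy (by norm_num)
        have h3 : 0 < (y + 1) / 2 := by omega
        calc (x + 1) / 2 * x ^ 3 ≤ (y + 1) / 2 * x ^ 3 := Nat.mul_le_mul_right _ h1
          _ < (y + 1) / 2 * y ^ 3 := Nat.mul_lt_mul_of_pos_left h2 h3
      exact hmono.injOn (Set.mem_Ici.2 hp.1.one_le) (Set.mem_Ici.2 hq.1.one_le) hpq
    refine Set.Finite.of_finite_image ((h3.union (Set.finite_singleton (((2 + 1) / 2 * 2 ^ 3 : ℕ)))).subset ?_)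
      this
    rintro _ ⟨p, ⟨hp, j, hj⟩, rfl⟩
    simp only
    rcases hp.eq_two_or_odd' with h2 | hodd
    · right; simp [h2]
    · left
      have hp3 : 3 ≤ p := by
        have h2 := hp.two_le
        rcases hodd with ⟨i, hi⟩
        omega
      obtain ⟨k, rfl⟩ : ∃ k, j = k + 1 := by
        rcases j with _ | k
        · simp at hj; omega
        · exact ⟨k, rfl⟩
      have hk : 1 ≤ k := by
        by_contra hk0
        have : k = 0 := by omega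
        rw [this] at hj; norm_num at hj; omega
      have hh : (p + 1) / 2 = 2 ^ k := by rw [hj, pow_succ]; simp
      rw [hh]
      exact ⟨(main k 3 p hk le_rfl hp hodd).2 ⟨rfl, hj⟩, k, p, hk, hp, hodd, rfl⟩
  · intro hfin m hm
    refine (hfin.image (fun p : ℕ => (p + 1) / 2 * p ^ 3)).subset ?_
    rintro n ⟨hn, k, p, hk, hp, hodd, rfl⟩
    obtain ⟨rfl, h⟩ := (main k m p hk hm hp hodd).1 hn
    refine ⟨p, ⟨hp, k + 1, h⟩, ?_⟩
    simp only
    rw [h, pow_succ]; simp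

end Pool.Agent.Results.MP_24a6f7_nt.MersennePrimesOnly
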